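import Mathlib
import Pool.Agent.Results.MP_6e34ef_nt.FewViolators
import Pool.Agent.Q273.Apx

/-!
# The uniform abc inequality at the algebraic approximations of given numbers

All number fields of a given degree together.
-/

set_option autoImplicit false

namespace Pool.Agent.Results.MP_6e34ef_nt.GoodApproximations

open NumberField IsDedekindDomain

section Defs

variable {K : Type} [Field K] [NumberField K]

/-- `log H(x_0, x_1, x_2)` -/
noncomputable def height (x : Fin 3 → K) : ℝ :=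
  (∑ w : InfinitePlace K, (w.mult : ℝ) * Real.log (max (w (x 0)) (max (w (x 1)) (w (x 2)))) +
    ∑ᶠ v : HeightOneSpectrum (𝓞 K), Real.log
      (max (FinitePlace.mk v (x 0)) (max (FinitePlace.mk v (x 1)) (FinitePlace.mk v (x 2))))) /
    (Module.finrank ℚ K : ℝ)

/-- `log N(x_0, x_1, x_2)` -/
noncomputable def conductor (x : Fin 3 → K) : ℝ :=
  (∑ᶠ (v : HeightOneSpectrum (𝓞 K)) (_ : ¬ (FinitePlace.mk v (x 0) = FinitePlace.mk v (x 1) ∧
      FinitePlace.mk v (x 1) = FinitePlace.mk v (x 2))),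
    Real.log (Ideal.absNorm v.asIdeal : ℝ)) / (Module.finrank ℚ K : ℝ)

variable (K) in
/-- `log δ_K` -/
noncomputable def rootDisc : ℝ := Real.log |(NumberField.discr K : ℝ)| / (Module.finrank ℚ K : ℝ)

end Defs

/-- The exponent `(n + 2) * (n - 1) / (4 * (n - n / p))`, `p` the least prime factor of `n`; it is
`1`, `5 / 4`, `9 / 4`, `7 / 4` for `n = 2, 3, 4, 5`, and `(n + 2) / 4` for every prime `n`. -/
noncomputable def expo (n : ℕ) : ℝ :=
  (((n + 2) * (n - 1) : ℕ) : ℝ) / (4 * ((n - n / n.minFac : ℕ) : ℝ))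

/-- the subfields `K` of degree `n` of the algebraic closure of `ℚ`, with an element `x ≠ 0, 1` -/
structure Pair (n : ℕ) where
  /-- the field -/
  K : IntermediateField ℚ (AlgebraicClosure ℚ)
  /-- it is a number field -/
  inst : NumberField K
  /-- its degree is `n` -/
  deg : Module.finrank ℚ K = n
  /-- the element -/
  x : K
  /-- it is not zero -/
  ne_zero : x ≠ 0
  /-- it is not one -/
  ne_one : x ≠ 1

/-- `log H` of the triple `(x, 1 - x, -1)` -/
noncomputable def Pair.h {n : ℕ} (P : Pair n) : ℝ :=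
  letI := P.inst
  height ![P.x, 1 - P.x, -1]

/-- `log N` of the triple `(x, 1 - x, -1)` -/
noncomputable def Pair.N {n : ℕ} (P : Pair n) : ℝ :=
  letI := P.inst
  conductor ![P.x, 1 - P.x, -1]

/-- `log δ_K` -/
noncomputable def Pair.d {n : ℕ} (P : Pair n) : ℝ :=
  letI := P.inst
  rootDisc P.K

private theorem conductor_nonneg {K : Type} [Field K] [NumberField K] (x : Fin 3 → K) :
    0 ≤ conductor x := by
  unfold conductor
  apply div_nonneg _ (Nat.cast_nonneg _)
  apply finsum_nonneg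
  intro v
  apply finsum_nonneg
  intro _
  apply Real.log_nonneg
  have h : Ideal.absNorm v.asIdeal ≠ 0 := by
    rw [Ne, Ideal.absNorm_eq_zero_iff]
    exact v.ne_bot
  exact_mod_cast Nat.one_le_iff_ne_zero.2 h

private theorem rootDisc_nonneg (K : Type) [Field K] [NumberField K] : 0 ≤ rootDisc K := by
  unfold rootDisc
  apply div_nonneg _ (Nat.cast_nonneg _)
  apply Real.log_nonneg
  have h : NumberField.discr K ≠ 0 := NumberField.discr_ne_zero K
  have h1 : 1 ≤ |NumberField.discr K| := Int.one_le_abs h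
  exact_mod_cast h1

private theorem pair_ext {n : ℕ} {P Q : Pair n} (h1 : P.K = Q.K)
    (h2 : (P.x : AlgebraicClosure ℚ) = Q.x) : P = Q := by
  obtain ⟨K, i, d, x, a, b⟩ := P
  obtain ⟨K', i', d', x', a', b'⟩ := Q
  simp only at h1 h2
  subst h1
  have h3 : x = x' := Subtype.ext h2
  subst h3
  rfl

private theorem count {n : ℕ} {e : ℝ} {κ : ℝ} (c : ℝ)
    (h : ∀ δ : ℝ, 0 < δ → ∃ M : ℝ, ∀ B : ℝ, 1 ≤ B → (FewViolators.Viol n κ c B).Finite ∧
          ((FewViolators.Viol n κ c B).ncard : ℝ) ≤ M * B ^ (e + δ)) (ε : ℝ) (hε : 0 < ε) :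
    ∃ C : ℝ, ∀ X : ℝ, 1 ≤ X →
      {P : Pair n | P ∈ {P : Pair n | c + κ * (P.d + P.N) < P.h} ∧ Real.exp P.h ≤ X}.Finite ∧
      ({P : Pair n | P ∈ {P : Pair n | c + κ * (P.d + P.N) < P.h} ∧ Real.exp P.h ≤ X}.ncard : ℝ) ≤
        C * X ^ (e + ε) := by
  obtain ⟨M, hM⟩ := h ε hε
  refine ⟨M, fun X hX => ?_⟩
  obtain ⟨h1, h2⟩ := hM X hX
  have hX0 : 0 < X := by linarith
  set S := {P : Pair n | P ∈ {P : Pair n | c + κ * (P.d + P.N) < P.h} ∧ Real.exp P.h ≤ X} with hS
  let f : Pair n → IntermediateField ℚ (AlgebraicClosure ℚ) × AlgebraicClosure ℚ :=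
    fun P => (P.K, (P.x : AlgebraicClosure ℚ))
  have hf : Function.Injective f := by
    intro P Q hPQ
    simp only [f, Prod.mk.injEq] at hPQ
    exact pair_ext hPQ.1 hPQ.2
  have hmaps : f '' S ⊆ FewViolators.Viol n κ c X := by
    rintro _ ⟨P, ⟨h3, h4⟩, rfl⟩
    refine ⟨P.inst, P.x, rfl, P.deg, P.ne_zero, P.ne_one, ?_, h3⟩
    rw [Real.le_log_iff_exp_le hX0]
    exact h4
  have hfin : S.Finite := Set.Finite.of_finite_image (h1.subset hmaps) hf.injOn
  refine ⟨hfin, le_trans ?_ h2⟩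
  rw [← Set.ncard_image_of_injective S hf]
  exact_mod_cast Set.ncard_le_ncard hmaps h1

/-- **The uniform abc inequality at the algebraic approximations of given numbers.** Let `Y` be a
metric space and `ψ` any map from the algebraic numbers to `Y` (for instance the embedding in the
complex or in the `p`-adic numbers). There is a function `e ≥ 0` with `e n ≤ expo n` for `n ≥ 2` and
`e n = O(log² n)` with the following properties.
(1) Let `n ≥ 2`, `κ > 0` and `τ > 0`. There is a set `E` in `Y` of Hausdorff dimension at most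
`n e(n) / (κ τ)` such that for each `ξ` outside `E` and all `A` and `c`, for all but finitely many
pairs of a number field `K` of degree `n` and `x ∈ K`, `x ≠ 0, 1`, with
`dist(ξ, ψ(x)) ≤ A H ^ (-τ)`, one has `log H ≤ κ (log δ_K + log N) + c`; here `H` and `N` are the
height and the conductor of `(x, 1 - x, -1)`.
(2) There is a set `E` in `Y` of Hausdorff dimension zero such that for each `ξ` outside `E`, all
`n ≥ 2`, `τ > 0` and `A` there are `κ` and `C` with `log H ≤ κ (log δ_K + log N) + C` for ALL number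
fields `K` of degree `n` and ALL `x ∈ K`, `x ≠ 0, 1`, with `dist(ξ, ψ(x)) ≤ A H ^ (-τ)`. -/
theorem result.{u} (Y : Type u) [MetricSpace Y] (ψ : AlgebraicClosure ℚ → Y) :
    ∃ e : ℕ → ℝ, (∀ n, 0 ≤ e n) ∧
      (∀ c : ℝ, 1 / (8 * (Real.log 2) ^ 2) < c →
        ∀ᶠ n : ℕ in Filter.atTop, e n ≤ c * (Real.log n) ^ 2) ∧
      (∀ n : ℕ, 2 ≤ n → e n ≤ expo n) ∧
      (∀ (n : ℕ) (κ τ : ℝ), 2 ≤ n → 0 < κ → 0 < τ → ∃ E : Set Y,
        dimH E ≤ ENNReal.ofReal (n * e n / (κ * τ)) ∧ ∀ ξ : Y, ξ ∉ E → ∀ A c : ℝ,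
          {P : Pair n | dist ξ (ψ P.x) ≤ A * (Real.exp P.h) ^ (-τ) ∧
            ¬ P.h ≤ κ * (P.d + P.N) + c}.Finite) ∧
      ∃ E : Set Y, dimH E = 0 ∧ ∀ ξ : Y, ξ ∉ E → ∀ (n : ℕ) (τ A : ℝ), 2 ≤ n → 0 < τ →
        ∃ κ C : ℝ, ∀ P : Pair n, dist ξ (ψ P.x) ≤ A * (Real.exp P.h) ^ (-τ) →
          P.h ≤ κ * (P.d + P.N) + C := by
  obtain ⟨e₀, h1, h2, h3⟩ := FewViolators.result.1
  set e : ℕ → ℝ := fun n => max (e₀ n) 0 with he
  have he0 : ∀ n, 0 ≤ e n := fun n => le_max_right _ _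
  have hcount : ∀ n : ℕ, 2 ≤ n → ∀ κ : ℝ, 0 < κ → ∀ c δ : ℝ, 0 < δ → ∃ M : ℝ, ∀ B : ℝ, 1 ≤ B →
      (FewViolators.Viol n κ c B).Finite ∧
          ((FewViolators.Viol n κ c B).ncard : ℝ) ≤ M * B ^ (((n : ℝ) * e n / κ) + δ) := by
    intro n hn κ hκ c δ hδ
    obtain ⟨M, hM⟩ := h3 n hn κ c δ hκ hδ
    refine ⟨|M|, fun B hB => ⟨(hM B hB).1, (hM B hB).2.trans ?_⟩⟩
    have hB0 : 0 < B := by linarith
    refine mul_le_mul (le_abs_self M) ?_ (by positivity) (abs_nonneg M)
    apply Real.rpow_le_rpow_of_exponent_le hB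
    have h4 : e₀ n ≤ e n := le_max_left _ _
    gcongr
  have hone : ∀ (n : ℕ) (κ τ : ℝ), 2 ≤ n → 0 < κ → 0 < τ → ∃ E : Set Y,
        dimH E ≤ ENNReal.ofReal (n * e n / (κ * τ)) ∧ ∀ ξ : Y, ξ ∉ E → ∀ A c : ℝ,
          {P : Pair n | dist ξ (ψ P.x) ≤ A * (Real.exp P.h) ^ (-τ) ∧
            ¬ P.h ≤ κ * (P.d + P.N) + c}.Finite := by
    intro n κ τ hn hκ hτ
    have key : ∀ m : ℕ, ∃ E : Set Y, dimH E ≤ ENNReal.ofReal (n * e n / (κ * τ)) ∧
        ∀ ξ : Y, ξ ∉ E → ∀ A : ℝ,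
          {P : Pair n | P ∈ {P : Pair n | -(m : ℝ) + κ * (P.d + P.N) < P.h} ∧
            dist ξ (ψ P.x) ≤ A * (Real.exp P.h) ^ (-τ)}.Finite := by
      intro m
      obtain ⟨E, h4, h5⟩ := Q273.Apx.approx {P : Pair n | -(m : ℝ) + κ * (P.d + P.N) < P.h}
        (fun P => Real.exp P.h) (fun P => ψ P.x) (s := n * e n / κ) (τ := τ)
        (div_nonneg (mul_nonneg (Nat.cast_nonneg n) (he0 n)) hκ.le) hτ
        (count (-(m : ℝ)) (fun δ hδ => hcount n hn κ hκ _ δ hδ))
      rw [div_div] at h4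
      exact ⟨E, h4, h5⟩
    choose E h4 h5 using key
    refine ⟨⋃ m, E m, ?_, fun ξ hξ A c => ?_⟩
    · rw [dimH_iUnion]
      exact iSup_le h4
    · obtain ⟨m, hm⟩ := exists_nat_ge (-c)
      refine (h5 m ξ (fun h => hξ (Set.mem_iUnion.2 ⟨m, h⟩)) A).subset ?_
      rintro P ⟨h6, h7⟩
      push Not at h7
      refine ⟨?_, h6⟩
      show -(m : ℝ) + κ * (P.d + P.N) < P.h
      linarith
  refine ⟨e, he0, ?_, ?_, hone, ?_⟩
  · intro c hc
    filter_upwards [h1 c hc] with n hn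
    have hc0 : 0 < c := lt_trans (by positivity) hc
    exact max_le hn (by positivity)
  · intro n hn
    refine max_le (h2 n hn) ?_
    unfold expo
    positivity
  · -- exponent zero
    have hex : ∀ n m k : ℕ, ∃ E : Set Y,
        dimH E ≤ ENNReal.ofReal ((n + 2 : ℕ) * e (n + 2) / (((k : ℝ) + 1) * (1 / ((m : ℝ) + 1)))) ∧
        ∀ ξ : Y, ξ ∉ E → ∀ A c : ℝ,
          {P : Pair (n + 2) | dist ξ (ψ P.x) ≤ A * (Real.exp P.h) ^ (-(1 / ((m : ℝ) + 1))) ∧
            ¬ P.h ≤ ((k : ℝ) + 1) * (P.d + P.N) + c}.Finite := fun n m k =>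
      hone (n + 2) _ _ (by omega) (by positivity) (by positivity)
    choose E h4 h5 using hex
    refine ⟨⋃ n, ⋃ m, ⋂ k, E n m k, ?_, fun ξ hξ n τ A hn hτ => ?_⟩
    · rw [dimH_iUnion]
      simp only [ENNReal.iSup_eq_zero]
      intro n
      rw [dimH_iUnion]
      simp only [ENNReal.iSup_eq_zero]
      intro m
      have h6 : ∀ k : ℕ, dimH (⋂ k, E n m k) ≤
          ENNReal.ofReal ((n + 2 : ℕ) * e (n + 2) / (((k : ℝ) + 1) * (1 / ((m : ℝ) + 1)))) :=
        fun k => (dimH_mono (Set.iInter_subset _ k)).trans (h4 n m k)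
      have h7 : Filter.Tendsto (fun k : ℕ =>
          ENNReal.ofReal ((n + 2 : ℕ) * e (n + 2) / (((k : ℝ) + 1) * (1 / ((m : ℝ) + 1)))))
          Filter.atTop (nhds (ENNReal.ofReal 0)) := by
        apply ENNReal.tendsto_ofReal
        have h8 : Filter.Tendsto (fun k : ℕ => ((k : ℝ) + 1) * (1 / ((m : ℝ) + 1))) Filter.atTop
            Filter.atTop :=
          (Filter.tendsto_atTop_add_const_right _ _ tendsto_natCast_atTop_atTop).atTop_mul_const
            (by positivity)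
        exact h8.const_div_atTop _
      rw [ENNReal.ofReal_zero] at h7
      exact le_antisymm (ge_of_tendsto' h7 h6) zero_le
    · obtain ⟨n', rfl⟩ : ∃ n', n = n' + 2 := ⟨n - 2, by omega⟩
      obtain ⟨m, hm⟩ := exists_nat_one_div_lt hτ
      have hξ' : ξ ∉ ⋂ k, E n' m k := fun h =>
        hξ (Set.mem_iUnion.2 ⟨n', Set.mem_iUnion.2 ⟨m, h⟩⟩)
      rw [Set.mem_iInter] at hξ'
      push Not at hξ'
      obtain ⟨k, hk⟩ := hξ'
      have hfin := h5 n' m k ξ hk |A| 0
      obtain ⟨L, hL⟩ := (hfin.image (fun P => P.h)).bddAbove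
      refine ⟨(k : ℝ) + 1, max L 0, fun P hP => ?_⟩
      have hnn : 0 ≤ P.d + P.N := by
        let _ := P.inst
        exact add_nonneg (rootDisc_nonneg P.K) (conductor_nonneg _)
      have hnn2 : 0 ≤ ((k : ℝ) + 1) * (P.d + P.N) := by positivity
      by_cases hbad : P.h ≤ ((k : ℝ) + 1) * (P.d + P.N) + 0
      · have := le_max_right L 0
        linarith
      · by_cases hneg : P.h ≤ 0
        · have := le_max_right L 0
          linarith
        · push Not at hneg
          have h6 : P.h ≤ L := by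
            apply hL
            refine ⟨P, ⟨?_, hbad⟩, rfl⟩
            refine hP.trans (mul_le_mul (le_abs_self A) ?_ (by positivity) (abs_nonneg A))
            exact Real.rpow_le_rpow_of_exponent_le (Real.one_le_exp hneg.le) (by linarith)
          have := le_max_left L 0
          linarith

end Pool.Agent.Results.MP_6e34ef_nt.GoodApproximations
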