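import Mathlib
import Pool.Agent.Q273.QP.Abc

/-!
# The uniform abc inequality for all quadratic fields near almost every adele

For a number field `K` of degree two and `x ∈ K`, `x ∉ ℚ`, the triple `(x, 1 - x, -1)` is considered;
up to scaling these are all triples `(a, b, c)` with `a + b + c = 0` over quadratic fields which are not
proportional to a rational triple. An integral adelic point `w = (ξ, η)` consists of a real number `ξ` and
of a `p`-adic integer `η_p` for every prime `p`, and `m_V(w, x)` is the proximity of `x` to `w` at the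
infinite place and at the primes in the finite set `V`, averaged over the conjugates of `x`.

For almost every `w` (Lebesgue measure times Haar measure), all finite `V` and every `ε > 0` the
inequalities `5/2 (m_V - log H) ≤ log N + log δ_K + ε log H + C` and
`3/2 (m_V - log H) ≤ log N + ε log H + C` hold with a constant `C` independent of `x` and of `K`.
-/

set_option autoImplicit false

open MeasureTheory Polynomial NumberField IsDedekindDomain

namespace Pool.Agent.Results.MP_6e34ef_nt.QuadraticFieldsNearAdeles

section Defs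

variable {K : Type} [Field K] [NumberField K]

/-- `log H(x_0, x_1, x_2)` -/
noncomputable def height (x : Fin 3 → K) : ℝ :=
  (∑ w : InfinitePlace K, (w.mult : ℝ) * Real.log (max (w (x 0)) (max (w (x 1)) (w (x 2)))) +
    ∑ᶠ v : HeightOneSpectrum (𝓞 K), Real.log
      (max (FinitePlace.mk v (x 0)) (max (FinitePlace.mk v (x 1)) (FinitePlace.mk v (x 2))))) /
    (Module.finrank ℚ K : ℝ)

/-- `log N(x_0, x_1, x_2)` -/
noncomputable def conductor (x : Fin 3 → K) : ℝ :=
  (∑ᶠ (v : HeightOneSpectrum (𝓞 K)) (_ : ¬ (FinitePlace.mk v (x 0) = FinitePlace.mk v (x 1) ∧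
      FinitePlace.mk v (x 1) = FinitePlace.mk v (x 2))),
    Real.log (Ideal.absNorm v.asIdeal : ℝ)) / (Module.finrank ℚ K : ℝ)

variable (K) in
/-- `log δ_K` -/
noncomputable def rootDisc : ℝ := Real.log |(discr K : ℝ)| / (Module.finrank ℚ K : ℝ)

end Defs

/-- the product of the rings of `p`-adic integers over all primes `p`, with the product topology -/
abbrev ZHat : Type := (p : Nat.Primes) → @PadicInt p.1 ⟨p.2⟩

/-- The proximity function of the real point `ξ`: the average over the conjugates `z` of `x`, i.e.
the roots of its minimal polynomial `f`, of `log (max(1,|z|) max(1,|ξ|) / |ξ - z|)`. -/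
noncomputable def proxInf (ξ : ℝ) (f : ℤ[X]) : ℝ :=
  ((f.map (Int.castRingHom ℂ)).roots.map fun z =>
    Real.log (max 1 ‖z‖ * max 1 |ξ| / ‖(ξ : ℂ) - z‖)).sum / f.natDegree

/-- The proximity function of the `p`-adic integer `η`, `-log |f(η)|_p / deg f`: for primitive `f`
this is the average over the conjugates `z` of `x` over `ℚ_p` of `log (max(1,|z|_p) / |η - z|_p)`. -/
noncomputable def proxP (p : Nat.Primes) (η : @PadicInt p.1 ⟨p.2⟩) (f : ℤ[X]) : ℝ :=
  haveI : Fact p.1.Prime := ⟨p.2⟩
  Real.log ‖aeval η f‖⁻¹ / f.natDegree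

/-- the proximity function of the adelic point `w` at the infinite place and the primes of `V` -/
noncomputable def prox (V : Finset Nat.Primes) (w : ℝ × ZHat) (f : ℤ[X]) : ℝ :=
  proxInf w.1 f + ∑ p ∈ V, proxP p (w.2 p) f

/-- **The uniform abc inequality for quadratic fields near almost every adele.** Let `μ` be a finite
translation invariant Borel measure on the compact group `ZHat` (a multiple of Haar measure). For almost
every `w = (ξ, η)` with respect to the product of Lebesgue measure and `μ`, all finite sets `V` of primes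
and all `ε > 0` there is `C` such that for ALL number fields `K` of degree two and ALL `x ∈ K` with
irreducible polynomial `f ∈ ℤ[X]` of degree two, writing `H`, `N` for the height and the conductor of the
triple `(x, 1 - x, -1)` and `m = prox V w f`:
(1) `5/2 (m - log H) ≤ log N + log δ_K + ε log H + C`;
(2) `3/2 (m - log H) ≤ log N + ε log H + C`;
(3) if `m ≥ 7/5 log H` then `log H ≤ log N + log δ_K + ε log H + C`;
(4) if `m ≥ 5/3 log H` then `log H ≤ log N + ε log H + C`. -/
theorem result [MeasurableSpace ZHat] [BorelSpace ZHat] (μ : Measure ZHat) [IsFiniteMeasure μ]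
    [μ.IsAddLeftInvariant] :
    ∀ᵐ w : ℝ × ZHat ∂(volume.prod μ), ∀ (V : Finset Nat.Primes) (ε : ℝ), 0 < ε → ∃ C : ℝ,
      ∀ (K : Type) [Field K] [NumberField K], Module.finrank ℚ K = 2 →
        ∀ (x : K) (f : ℤ[X]), Irreducible f → f.natDegree = 2 → aeval x f = 0 →
          5 / 2 * (prox V w f - height ![x, 1 - x, -1]) ≤
            conductor ![x, 1 - x, -1] + rootDisc K + ε * height ![x, 1 - x, -1] + C ∧
          3 / 2 * (prox V w f - height ![x, 1 - x, -1]) ≤
            conductor ![x, 1 - x, -1] + ε * height ![x, 1 - x, -1] + C ∧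
          (7 / 5 * height ![x, 1 - x, -1] ≤ prox V w f → height ![x, 1 - x, -1] ≤
            conductor ![x, 1 - x, -1] + rootDisc K + ε * height ![x, 1 - x, -1] + C) ∧
          (5 / 3 * height ![x, 1 - x, -1] ≤ prox V w f → height ![x, 1 - x, -1] ≤
            conductor ![x, 1 - x, -1] + ε * height ![x, 1 - x, -1] + C) := by
  filter_upwards [Q273.QP.lawq μ] with w hw
  intro V ε hε
  obtain ⟨C, hC⟩ := Q273.QP.abcq (hw V).1 (hw V).2.1 hε
  refine ⟨C, fun K _ _ hK x f hf hd hx => ?_⟩
  have h1 : 5 / 2 * (prox V w f - height ![x, 1 - x, -1]) ≤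
      conductor ![x, 1 - x, -1] + rootDisc K + ε * height ![x, 1 - x, -1] + C :=
    (hC K hK x f hf hd hx).1
  have h2 : 3 / 2 * (prox V w f - height ![x, 1 - x, -1]) ≤
      conductor ![x, 1 - x, -1] + ε * height ![x, 1 - x, -1] + C := (hC K hK x f hf hd hx).2
  exact ⟨h1, h2, fun h => by linarith, fun h => by linarith⟩

end Pool.Agent.Results.MP_6e34ef_nt.QuadraticFieldsNearAdeles
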