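import Mathlib
import Pool.Agent.Q277.SN.Ht

/-!
# The uniform abc inequality for algebraic integers with small digits, over all number fields

All constants depend on `K` (the total degree of the polynomials) and on `ε` only: they depend
neither on the number field `L` nor on its degree, and there is no discriminant factor.
-/

set_option autoImplicit false

namespace Pool.Agent.Results.MP_6e34ef_nt.SmallDigits

open Polynomial Finset NumberField IsDedekindDomain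

section Defs

variable {L : Type} [Field L] [NumberField L]

open Classical in
/-- `H(a, b, c)`, as in the frozen statement of the problem: the finite places contribute the
inverse of the norm of the fractional ideal `(a, b, c)`. -/
noncomputable def height (a b c : L) : ℝ :=
  (((FractionalIdeal.absNorm
      (FractionalIdeal.spanSingleton (nonZeroDivisors (𝓞 L)) a
        + FractionalIdeal.spanSingleton (nonZeroDivisors (𝓞 L)) b
        + FractionalIdeal.spanSingleton (nonZeroDivisors (𝓞 L)) c) : ℚ) : ℝ)⁻¹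
    * ∏ᶠ τ : L →+* ℂ, max (max ‖τ a‖ ‖τ b‖) ‖τ c‖) ^ ((1 : ℝ) / (Module.finrank ℚ L : ℝ))

open Classical in
/-- `N(a, b, c)`, as in the frozen statement of the problem. -/
noncomputable def conductor (a b c : L) : ℝ :=
  (∏ᶠ v : HeightOneSpectrum (𝓞 L),
    if v.valuation L a = v.valuation L b ∧ v.valuation L b = v.valuation L c
    then (1 : ℝ) else (Ideal.absNorm v.asIdeal : ℝ)) ^ ((1 : ℝ) / (Module.finrank ℚ L : ℝ))

open Classical in
/-- The product of the norms of the prime ideals at which `x` is not a unit, to the power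
`1 / [L : ℚ]`. -/
noncomputable def rad (x : L) : ℝ :=
  (∏ᶠ v : HeightOneSpectrum (𝓞 L),
    if v.valuation L x = 1 then (1 : ℝ) else (Ideal.absNorm v.asIdeal : ℝ))
      ^ ((1 : ℝ) / (Module.finrank ℚ L : ℝ))

/-- The bases which occur in one of the three terms. -/
def used {m : ℕ} (l b c : Fin m → ℕ) : Finset (Fin m) :=
  Finset.univ.filter (fun i => l i ≠ 0 ∨ b i ≠ 0 ∨ c i ≠ 0)

/-- The bases are the values `F_i(t)`, `i < m`, of nonconstant polynomials with integral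
coefficients in `L`, of total degree at most `K`; all conjugates of the coefficients (digits) have
absolute value at most `H`, those of the leading coefficients at least `1 / H` (this holds if
the leading coefficient is a root of unity, or an integer), and `F_i(0)` is `0` or a root of unity
(all conjugates have absolute value at most `1`). The coefficients `α`, `β`, `γ` of the three terms
are nonzero integers of `L` with conjugates at most `H`, and the exponents of each term add up to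
at most `H`. `NumberField.house x` is the largest absolute value of the conjugates of `x`. -/
structure Terms (K : ℕ) (H : ℝ) {m : ℕ} (F : Fin m → (𝓞 L)[X]) (α β γ : 𝓞 L)
    (l b c : Fin m → ℕ) : Prop where
  pos : ∀ i, 0 < (F i).natDegree
  deg : ∑ i, (F i).natDegree ≤ K
  digits : ∀ i j, house (algebraMap (𝓞 L) L ((F i).coeff j)) ≤ H
  lead : ∀ i, ∀ σ : L →+* ℂ, H⁻¹ ≤ ‖σ (algebraMap (𝓞 L) L (F i).leadingCoeff)‖
  last : ∀ i, house (algebraMap (𝓞 L) L ((F i).coeff 0)) ≤ 1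
  ne : α ≠ 0 ∧ β ≠ 0 ∧ γ ≠ 0
  coef : house (algebraMap (𝓞 L) L α) ≤ H ∧ house (algebraMap (𝓞 L) L β) ≤ H ∧
    house (algebraMap (𝓞 L) L γ) ≤ H
  exps : ((∑ i, l i : ℕ) : ℝ) ≤ H ∧ ((∑ i, b i : ℕ) : ℝ) ≤ H ∧ ((∑ i, c i : ℕ) : ℝ) ≤ H

/-- `N((x)) ^ (1 / n)` for an integer `x` of `L`, `n = [L : ℚ]`. -/
noncomputable def nrm (x : 𝓞 L) : ℝ :=
  (Ideal.absNorm (Ideal.span {x}) : ℝ) ^ ((1 : ℝ) / (Module.finrank ℚ L : ℝ))

/-- The term `α ∏ F_i(t) ^ l_i`. -/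
noncomputable def term {m : ℕ} (F : Fin m → (𝓞 L)[X]) (t : ℕ) (α : 𝓞 L) (l : Fin m → ℕ) : 𝓞 L :=
  α * ∏ i, (F i).eval (t : 𝓞 L) ^ l i

/-- The polynomial `α ∏ F_i ^ l_i`. -/
noncomputable def poly {m : ℕ} (F : Fin m → (𝓞 L)[X]) (α : 𝓞 L) (l : Fin m → ℕ) : (𝓞 L)[X] :=
  C α * ∏ i, F i ^ l i

/-- The inequalities (1) to (4) below. -/
def Bounds (t : ℕ) (ε : ℝ) (x y z Q : 𝓞 L) : Prop :=
  (∀ σ : L →+* ℂ, max (max ‖σ (algebraMap (𝓞 L) L x)‖ ‖σ (algebraMap (𝓞 L) L y)‖)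
    ‖σ (algebraMap (𝓞 L) L z)‖ * (t : ℝ) ^ (1 - ε) ≤ ‖σ (algebraMap (𝓞 L) L Q)‖) ∧
  height (algebraMap (𝓞 L) L x) (algebraMap (𝓞 L) L y) (algebraMap (𝓞 L) L z) *
    (t : ℝ) ^ (1 - ε) ≤ nrm Q ∧
  height (algebraMap (𝓞 L) L x) (algebraMap (𝓞 L) L y) (algebraMap (𝓞 L) L z) *
    (t : ℝ) ^ (1 - ε) * rad (algebraMap (𝓞 L) L Q) ≤
      nrm Q * conductor (algebraMap (𝓞 L) L x) (algebraMap (𝓞 L) L y) (algebraMap (𝓞 L) L z) ∧
  (Squarefree (Ideal.span {Q}) →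
    height (algebraMap (𝓞 L) L x) (algebraMap (𝓞 L) L y) (algebraMap (𝓞 L) L z) *
      (t : ℝ) ^ (1 - ε) ≤
        conductor (algebraMap (𝓞 L) L x) (algebraMap (𝓞 L) L y) (algebraMap (𝓞 L) L z))

end Defs

/-- The inequalities. -/
theorem main (K : ℕ) (ε : ℝ) (hε : 0 < ε) : ∃ δ : ℝ, 0 < δ ∧ ∃ t₀ : ℕ, ∀ t : ℕ, t₀ ≤ t →
    ∀ (L : Type) [Field L] [NumberField L] (m : ℕ) (F : Fin m → (𝓞 L)[X]) (α β γ : 𝓞 L)
      (l b c : Fin m → ℕ), Terms K ((t : ℝ) ^ δ) F α β γ l b c →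
      ∀ x y z : 𝓞 L, x = α * ∏ i, (F i).eval (t : 𝓞 L) ^ l i →
        y = β * ∏ i, (F i).eval (t : 𝓞 L) ^ b i → z = γ * ∏ i, (F i).eval (t : 𝓞 L) ^ c i →
        x + y + z = 0 → ¬ ((t : 𝓞 L) ∣ x ∧ (t : 𝓞 L) ∣ y) →
      C α * ∏ i, F i ^ l i + C β * ∏ i, F i ^ b i + C γ * ∏ i, F i ^ c i = 0 ∧
      (IsCoprime x y → (used l b c).Nonempty →
        ∀ Q : 𝓞 L, Q = ∏ i ∈ used l b c, (F i).eval (t : 𝓞 L) → Bounds t ε x y z Q) := by
  classical
  obtain ⟨δ₁, hδ₁, t₁, h1⟩ := Pool.Agent.Q277.SN.three K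
  obtain ⟨δ₂, hδ₂, t₂, h2⟩ := Pool.Agent.Q277.SN.abc_size K ε hε
  obtain ⟨δ, hδ⟩ : ∃ δ, δ = min (min δ₁ δ₂) (1 / 4) := ⟨_, rfl⟩
  have hδ0 : 0 < δ := by rw [hδ]; exact lt_min (lt_min hδ₁ hδ₂) (by norm_num)
  have hδδ₁ : δ ≤ δ₁ := by rw [hδ]; exact (min_le_left _ _).trans (min_le_left _ _)
  have hδδ₂ : δ ≤ δ₂ := by rw [hδ]; exact (min_le_left _ _).trans (min_le_right _ _)
  refine ⟨δ, hδ0, max (max t₁ t₂) 256, ?_⟩
  intro t ht L _ _ m F α β γ l b c hS x y z hx hy hz heq hnd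
  have htt₁ : t₁ ≤ t := (le_max_left _ _).trans ((le_max_left _ _).trans ht)
  have htt₂ : t₂ ≤ t := (le_max_right _ _).trans ((le_max_left _ _).trans ht)
  have ht256 : 256 ≤ t := (le_max_right _ _).trans ht
  have ht1 : (1 : ℝ) ≤ t := by exact_mod_cast (show 1 ≤ t by omega)
  have ht0 : (0 : ℝ) < t := by linarith
  obtain ⟨hH1, hHt⟩ := Pool.Agent.Q277.SN.bound_t hδ0 (by rw [hδ]; exact min_le_right _ _) ht256
  have hD : Pool.Agent.Q277.SN.Data K ((t : ℝ) ^ δ) F α β γ l b c :=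
    ⟨hS.pos, hS.deg, fun i => ⟨hS.digits i, hS.lead i⟩, hS.last, hS.ne.1, hS.ne.2.1, hS.ne.2.2,
      hS.coef.1, hS.coef.2.1, hS.coef.2.2, hS.exps.1, hS.exps.2.1, hS.exps.2.2⟩
  have hpos : 0 < (t : ℝ) ^ δ := by positivity
  have hD1 := hD.mono hpos (Real.rpow_le_rpow_of_exponent_le ht1 hδδ₁)
  have hD2 := hD.mono hpos (Real.rpow_le_rpow_of_exponent_le ht1 hδδ₂)
  have hid := h1 t htt₁ L m F α β γ l b c hD1 (by rw [← hx, ← hy, ← hz]; exact heq)
    (by rw [← hx, ← hy]; exact hnd)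
  refine ⟨hid, fun hcop hU Q hQ => ?_⟩
  have hsize := h2 t htt₂ L m F α β γ l b c hD2 (by rw [← hx, ← hy]; exact hcop) hid hU
  have harch : ∀ σ : L →+* ℂ, max (max ‖σ (algebraMap (𝓞 L) L x)‖ ‖σ (algebraMap (𝓞 L) L y)‖)
      ‖σ (algebraMap (𝓞 L) L z)‖ * (t : ℝ) ^ (1 - ε) ≤ ‖σ (algebraMap (𝓞 L) L Q)‖ := by
    intro σ
    have e1 := hsize x (Or.inl hx) σ
    have e2 := hsize y (Or.inr (Or.inl hy)) σ
    have e3 := hsize z (Or.inr (Or.inr hz)) σ
    have hQ' : ∏ i ∈ Pool.Agent.Q277.SN.used l b c, (F i).eval (t : 𝓞 L) = Q := hQ.symm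
    rw [hQ'] at e1 e2 e3
    have hp : 0 ≤ (t : ℝ) ^ (1 - ε) := by positivity
    rw [max_mul_of_nonneg _ _ hp, max_mul_of_nonneg _ _ hp]
    exact max_le (max_le e1 e2) e3
  have hn : (Module.finrank ℚ L : ℝ) ≠ 0 := by
    exact_mod_cast (Module.finrank_pos (R := ℚ) (M := L)).ne'
  have hheight : height (algebraMap (𝓞 L) L x) (algebraMap (𝓞 L) L y) (algebraMap (𝓞 L) L z) *
      (t : ℝ) ^ (1 - ε) ≤
        (Ideal.absNorm (Ideal.span {Q}) : ℝ) ^ ((1 : ℝ) / (Module.finrank ℚ L : ℝ)) := by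
    have e1 : height (algebraMap (𝓞 L) L x) (algebraMap (𝓞 L) L y) (algebraMap (𝓞 L) L z) =
        (∏ τ : L →+* ℂ, max (max ‖τ (algebraMap (𝓞 L) L x)‖ ‖τ (algebraMap (𝓞 L) L y)‖)
          ‖τ (algebraMap (𝓞 L) L z)‖) ^ ((1 : ℝ) / (Module.finrank ℚ L : ℝ)) :=
      Pool.Agent.Q277.SN.Ht_eq z hcop
    have e2 : (Ideal.absNorm (Ideal.span {Q}) : ℝ) = ∏ τ : L →+* ℂ, ‖τ (algebraMap (𝓞 L) L Q)‖ :=
      Pool.Agent.Q277.SN.absNorm_eq Q
    have e3 : (t : ℝ) ^ (1 - ε) = (∏ _τ : L →+* ℂ, (t : ℝ) ^ (1 - ε)) ^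
        ((1 : ℝ) / (Module.finrank ℚ L : ℝ)) := by
      rw [Finset.prod_const, Finset.card_univ, NumberField.Embeddings.card,
        ← Real.rpow_natCast, ← Real.rpow_mul (by positivity), mul_one_div_cancel hn, Real.rpow_one]
    have hnn : 0 ≤ ∏ τ : L →+* ℂ, max (max ‖τ (algebraMap (𝓞 L) L x)‖
        ‖τ (algebraMap (𝓞 L) L y)‖) ‖τ (algebraMap (𝓞 L) L z)‖ :=
      Finset.prod_nonneg fun τ _ => le_max_of_le_right (norm_nonneg _)
    rw [e1, e2, e3, ← Real.mul_rpow hnn (Finset.prod_nonneg fun _ _ => by positivity),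
      ← Finset.prod_mul_distrib]
    apply Real.rpow_le_rpow
    · exact Finset.prod_nonneg fun τ _ =>
        mul_nonneg (le_max_of_le_right (norm_nonneg _)) (by positivity)
    · exact Finset.prod_le_prod (fun τ _ =>
        mul_nonneg (le_max_of_le_right (norm_nonneg _)) (by positivity)) fun τ _ => harch τ
    · positivity
  -- the bases are nonzero
  have hev : ∀ i, (F i).eval (t : 𝓞 L) ≠ 0 := fun i => (hD.dig i).ne_zero hH1 hHt
  have hprod : ∀ (η : 𝓞 L) (e : Fin m → ℕ), η ≠ 0 →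
      η * ∏ i, (F i).eval (t : 𝓞 L) ^ e i ≠ 0 := fun η e hη =>
    mul_ne_zero hη (Finset.prod_ne_zero_iff.mpr fun i _ => pow_ne_zero _ (hev i))
  have hQ0 : Q ≠ 0 := by rw [hQ]; exact Finset.prod_ne_zero_iff.mpr fun i _ => hev i
  have hrad : rad (algebraMap (𝓞 L) L Q) ≤ conductor (algebraMap (𝓞 L) L x)
      (algebraMap (𝓞 L) L y) (algebraMap (𝓞 L) L z) := by
    refine Pool.Agent.Q277.SN.Rd_le_Cd (L := L) (by rw [hx]; exact hprod α l hS.ne.1)
      (by rw [hy]; exact hprod β b hS.ne.2.1) (by rw [hz]; exact hprod γ c hS.ne.2.2) hQ0 hcop ?_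
    intro v hv
    rw [hQ] at hv
    obtain ⟨i, hi, hvi⟩ := v.isPrime.prod_mem_iff.mp hv
    have hd : ∀ (η : 𝓞 L) (e : Fin m → ℕ), e i ≠ 0 →
        η * ∏ i, (F i).eval (t : 𝓞 L) ^ e i ∈ v.asIdeal := by
      intro η e he
      apply v.asIdeal.mul_mem_left
      refine v.isPrime.prod_mem_iff.mpr ⟨i, Finset.mem_univ i, ?_⟩
      exact Ideal.pow_mem_of_mem _ hvi _ (Nat.pos_of_ne_zero he)
    rcases (Finset.mem_filter.mp hi).2 with h | h | h
    · exact Or.inl (by rw [hx]; exact hd α l h)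
    · exact Or.inr (Or.inl (by rw [hy]; exact hd β b h))
    · exact Or.inr (Or.inr (by rw [hz]; exact hd γ c h))
  have hrad0 : 0 ≤ rad (algebraMap (𝓞 L) L Q) := by
    unfold rad
    apply Real.rpow_nonneg
    exact finprod_nonneg fun v => by split_ifs <;> positivity
  refine ⟨harch, hheight, ?_, fun hsq => ?_⟩
  · exact mul_le_mul hheight hrad hrad0 (Real.rpow_nonneg (Nat.cast_nonneg _) _)
  · have e1 : rad (algebraMap (𝓞 L) L Q) =
        (Ideal.absNorm (Ideal.span {Q}) : ℝ) ^ ((1 : ℝ) / (Module.finrank ℚ L : ℝ)) :=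
      Pool.Agent.Q277.SN.Rd_squarefree hQ0 hsq
    rw [← e1] at hheight
    exact hheight.trans hrad

/-- **Uniform abc for integers with small digits over all number fields.** For all `K` and `ε > 0`
there are `δ > 0` and `t₀` such that for all integers `t ≥ t₀`, ALL number fields `L` and all data
`Terms K (t ^ δ)`: let `x = α ∏ F_i(t) ^ l_i`, `y = β ∏ F_i(t) ^ b_i`, `z = γ ∏ F_i(t) ^ c_i` and
suppose that `x + y + z = 0`, and that `t` does not divide both `x` and `y`. Then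
`α ∏ F_i ^ l_i + β ∏ F_i ^ b_i + γ ∏ F_i ^ c_i = 0` in `L[X]`. If moreover the ideals `(x)`, `(y)`
are coprime and at least one base occurs, let `Q` be the product of the bases `F_i(t)` which occur.
Then
(1) `|σ x|, |σ y|, |σ z| ≤ |σ Q| / t ^ (1 - ε)` for all embeddings `σ` of `L` into `ℂ`;
(2) `H(x, y, z) * t ^ (1 - ε) ≤ N((Q)) ^ (1 / n)`, `n = [L : ℚ]`;
(3) `H(x, y, z) * t ^ (1 - ε) * rad Q ≤ N((Q)) ^ (1 / n) * N(x, y, z)`;
(4) if the ideal `(Q)` is squarefree then `H(x, y, z) * t ^ (1 - ε) ≤ N(x, y, z)`. -/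
theorem result (K : ℕ) (ε : ℝ) (hε : 0 < ε) : ∃ δ : ℝ, 0 < δ ∧ ∃ t₀ : ℕ, ∀ t : ℕ, t₀ ≤ t →
    ∀ (L : Type) [Field L] [NumberField L] (m : ℕ) (F : Fin m → (𝓞 L)[X]) (α β γ : 𝓞 L)
      (l b c : Fin m → ℕ), Terms K ((t : ℝ) ^ δ) F α β γ l b c →
      term F t α l + term F t β b + term F t γ c = 0 →
      ¬ ((t : 𝓞 L) ∣ term F t α l ∧ (t : 𝓞 L) ∣ term F t β b) →
      poly F α l + poly F β b + poly F γ c = 0 ∧
      (IsCoprime (term F t α l) (term F t β b) → (used l b c).Nonempty →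
        Bounds t ε (term F t α l) (term F t β b) (term F t γ c)
          (∏ i ∈ used l b c, (F i).eval (t : 𝓞 L))) := by
  obtain ⟨δ, hδ, t₀, h⟩ := main K ε hε
  refine ⟨δ, hδ, t₀, fun t ht L _ _ m F α β γ l b c hS heq hnd => ?_⟩
  obtain ⟨h1, h2⟩ := h t ht L m F α β γ l b c hS _ _ _ rfl rfl rfl heq hnd
  exact ⟨h1, fun hcop hU => h2 hcop hU _ rfl⟩

end Pool.Agent.Results.MP_6e34ef_nt.SmallDigits
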