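import Pool.Agent.Q265.BD.H

/-!
# The uniform abc conjecture and the values of one Belyi map

Let `f = p / q` be any Belyi map of the projective line, defined over any number field `F`. The
uniform abc conjecture (over all number fields, with one constant) is equivalent to its restriction
to the triples `(p(t), q(t) - p(t), -q(t))`, where `t` runs through the elements of the number fields
containing `F`.
-/

set_option autoImplicit false

open NumberField Polynomial Height

namespace Pool.Agent.Results.MP_6e34ef_nt.ValuesOfOneBelyiMap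

section defs

variable {K : Type} [Field K] [NumberField K]

/-- `log H(a, b, c)`: the height of the point `(a : b : c)`, normalised by the degree of `K` -/
noncomputable def logH (a b c : K) : ℝ := logHeight ![a, b, c] / Module.finrank ℚ K

/-- `log N(a, b, c)`: the sum of `log #(𝓞 K / 𝔭) / [K : ℚ]` over the primes at which two of the
absolute values of `a`, `b`, `c` differ -/
noncomputable def logN (a b c : K) : ℝ :=
  (∑ᶠ v ∈ {v : FinitePlace K | ¬ (v a = v b ∧ v b = v c)},
    Real.log ((Ideal.absNorm v.maximalIdeal.asIdeal : ℕ) : ℝ)) / Module.finrank ℚ K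

variable (K) in
/-- `log δ_K`: the logarithm of the root discriminant -/
noncomputable def logδ : ℝ := Real.log |(discr K : ℝ)| / Module.finrank ℚ K

end defs

/-- The uniform abc conjecture: for `ε > 0` there is `C` such that
`log H(a, b, c) ≤ (1 + ε) (log δ_K + log N(a, b, c)) + C` for all number fields `K` and all nonzero
`a + b + c = 0` in `K`. -/
def UniformAbc : Prop :=
  ∀ ε : ℝ, 0 < ε → ∃ C : ℝ, ∀ (K : Type) [Field K] [NumberField K] (a b c : K),
    a ≠ 0 → b ≠ 0 → c ≠ 0 → a + b + c = 0 → logH a b c ≤ (1 + ε) * (logδ K + logN a b c) + C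

/-- The same inequality for the triples `(p(t), q(t) - p(t), -q(t))` only, where `t` runs through the
elements of the number fields containing `F`. -/
def OnFamily (F : Type) [Field F] [NumberField F] (p q : F[X]) : Prop :=
  ∀ ε : ℝ, 0 < ε → ∃ C : ℝ, ∀ (K : Type) [Field K] [NumberField K] [Algebra F K] (t : K),
    aeval t p ≠ 0 → aeval t q - aeval t p ≠ 0 → aeval t q ≠ 0 →
      logH (aeval t p) (aeval t q - aeval t p) (-aeval t q) ≤
        (1 + ε) * (logδ K + logN (aeval t p) (aeval t q - aeval t p) (-aeval t q)) + C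

/-- The rational function `f = p / q` over `F` has degree `d ≥ 1`, and there are at most `d + 1`
points other than `∞` over the algebraic closure which `f` maps to `0`, `1` or `∞`. By the formula of
Riemann and Hurwitz this means that `f` is unramified outside `0, 1, ∞` and that `f(∞)` is one of
these points. -/
def IsBelyi {F : Type} [Field F] (p q : F[X]) (d : ℕ) : Prop :=
  IsCoprime p q ∧ 1 ≤ d ∧ p.natDegree ≤ d ∧ q.natDegree ≤ d ∧ (p.natDegree = d ∨ q.natDegree = d) ∧
    ((p * q * (p - q)).rootSet (AlgebraicClosure F)).ncard ≤ d + 1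

section lemmas

variable {K : Type} [Field K] [NumberField K]

theorem sum_eq (T : Set (FinitePlace K)) :
    (∑ᶠ v ∈ T, Real.log ((Ideal.absNorm v.maximalIdeal.asIdeal : ℕ) : ℝ)) =
      Real.log (Q265.NF.PP T) := by
  unfold Q265.NF.PP
  rw [Real.log_finprod (fun v => lt_of_lt_of_le one_pos (Q241.AK.one_le_pr _ v))]
  refine finsum_congr fun v => ?_
  classical
  rw [finsum_eq_if]
  unfold Q241.AK.pr Q241.AK.N
  by_cases hv : v ∈ T
  · rw [if_pos hv, if_pos hv]
  · rw [if_neg hv, if_neg hv, Real.log_one]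

theorem height_low (a b c : K) : logHeight ![a, c] ≤ logHeight ![a, b, c] := by
  have h := logHeight_comp_le (![0, 2] : Fin 2 → Fin 3) ![a, b, c]
  have e : ![a, b, c] ∘ (![0, 2] : Fin 2 → Fin 3) = ![a, c] := by
    funext i
    fin_cases i <;> rfl
  rwa [e] at h

theorem height_up {a b c : K} (ha : a ≠ 0) (hb : b ≠ 0) (hc : c ≠ 0) (h : a + b + c = 0) :
    logHeight ![a, b, c] ≤ logHeight ![a, c] + Module.finrank ℚ K * Real.log 2 := by
  have h1 : logHeight ![a, a, c] ≤ logHeight ![a, c] := by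
    have h := logHeight_comp_le (![0, 0, 1] : Fin 3 → Fin 2) ![a, c]
    have e : ![a, c] ∘ (![0, 0, 1] : Fin 3 → Fin 2) = ![a, a, c] := by
      funext i
      fin_cases i <;> rfl
    rwa [e] at h
  have eb : b = -a + -c := by linear_combination h
  have h2 : logHeight ![a, b, c] ≤ logHeight ![a, a, c] + Module.finrank ℚ K * Real.log 2 := by
    refine Q265.NF.log_loc_le ?_ ?_ one_le_two (fun v => Q265.NF.mf_le fun i => ?_)
      (fun w => Q265.NF.mi_le fun i => ?_)
    · intro i
      fin_cases i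
      · exact ha
      · exact hb
      · exact hc
    · intro i
      fin_cases i
      · exact ha
      · exact ha
      · exact hc
    · have m0 : v a ≤ Q241.AK.mf ![a, a, c] v := Finite.le_ciSup (fun i => v (![a, a, c] i)) 0
      have m2 : v c ≤ Q241.AK.mf ![a, a, c] v := Finite.le_ciSup (fun i => v (![a, a, c] i)) 2
      fin_cases i
      · exact m0
      · show v b ≤ _
        rw [eb]
        refine (FinitePlace.add_le v _ _).trans (max_le ?_ ?_)
        · rwa [Q265.BM.fneg']
        · rwa [Q265.BM.fneg']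
      · exact m2
    · have m0 : w a ≤ Q241.AK.mi ![a, a, c] w := Finite.le_ciSup (fun i => w (![a, a, c] i)) 0
      have m2 : w c ≤ Q241.AK.mi ![a, a, c] w := Finite.le_ciSup (fun i => w (![a, a, c] i)) 2
      have m3 : 0 ≤ w a := by positivity
      have m4 : 0 ≤ w c := by positivity
      fin_cases i
      · show w a ≤ _
        linarith
      · show w b ≤ _
        rw [eb]
        have h5 := Q265.BM.iadd' w (-a) (-c)
        have h6 : w (-a) = w a := w.val.map_neg a
        have h7 : w (-c) = w c := w.val.map_neg c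
        rw [h6, h7] at h5
        linarith
      · show w c ≤ _
        linarith
  linarith

/-- the conductor of a triple -/
theorem cond_eq {a b c : K} (hc : c ≠ 0) (h : a + b + c = 0) :
    {v : FinitePlace K | ¬ (v a = v b ∧ v b = v c)} = Q265.BD.UsA ∅ ![0, 1] (-a / c) := by
  have hs1 : -a / c - 1 = b / c := by
    field_simp
    linear_combination -h
  ext v
  have hvc : 0 < v c := FinitePlace.pos_iff.2 hc
  have e1 : v (-a / c) = v a / v c := by rw [map_div₀, Q265.BM.fneg']
  have e2 : v (-a / c - 1) = v b / v c := by rw [hs1, map_div₀]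
  show ¬ (v a = v b ∧ v b = v c) ↔
    (v ∉ (∅ : Set (FinitePlace K)) ∧ ((∃ i : Fin 2, Q265.BM.Meets v (![0, 1] i) (-a / c)) ∨
      1 < v (-a / c)))
  obtain ⟨s, hs⟩ : ∃ s : K, s = -a / c := ⟨_, rfl⟩
  rw [← hs] at e1 e2 ⊢
  have hfin2 : (∃ i : Fin 2, Q265.BM.Meets v ((![0, 1] : Fin 2 → K) i) s) ↔
      Q265.BM.Meets v 0 s ∨ Q265.BM.Meets v 1 s := by
    constructor
    · rintro ⟨i, hi⟩
      fin_cases i
      · exact Or.inl hi
      · exact Or.inr hi
    · rintro (hi | hi)
      · exact ⟨0, hi⟩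
      · exact ⟨1, hi⟩
  have hm0 : Q265.BM.Meets v 0 s ↔ v s < max (v s) 1 := by
    unfold Q265.BM.Meets
    rw [sub_zero, map_zero, max_eq_right zero_le_one, mul_one]
  have hm1 : Q265.BM.Meets v 1 s ↔ v (s - 1) < max (v s) 1 := by
    unfold Q265.BM.Meets
    rw [map_one, max_self, mul_one]
  have hle : v (s - 1) ≤ max (v s) 1 := by
    have := FinitePlace.add_le v s (-1)
    rwa [Q265.BM.fneg', map_one, ← sub_eq_add_neg] at this
  rw [hfin2, hm0, hm1]
  have k1 : v a = v b ∧ v b = v c ↔ v s = 1 ∧ v (s - 1) = 1 := by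
    rw [e1, e2, div_eq_one_iff_eq hvc.ne', div_eq_one_iff_eq hvc.ne']
    constructor
    · rintro ⟨h1, h2⟩
      exact ⟨h1.trans h2, h2⟩
    · rintro ⟨h1, h2⟩
      exact ⟨h1.trans h2.symm, h2⟩
  rw [k1]
  constructor
  · intro h1
    refine ⟨Set.notMem_empty v, ?_⟩
    by_contra hcon
    push Not at hcon
    obtain ⟨⟨c1, c2⟩, c3⟩ := hcon
    rw [max_eq_right c3] at c1 c2 hle
    exact h1 ⟨le_antisymm c3 c1, le_antisymm hle c2⟩
  · rintro ⟨-, h1⟩ ⟨h2, h3⟩
    rw [h2, h3, max_self] at h1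
    rcases h1 with (h1 | h1) | h1 <;> exact lt_irrefl _ h1

theorem logN_eq {a b c : K} (hc : c ≠ 0) (h : a + b + c = 0) :
    logN a b c = Real.log (Q265.NF.PP (Q265.BD.UsA ∅ ![0, 1] (-a / c))) / Module.finrank ℚ K := by
  unfold logN
  rw [sum_eq, cond_eq hc h]

theorem h1_eq (a c : K) : logHeight ![a, c] = logHeight₁ (-a / c) := by
  rw [neg_div, logHeight₁_neg, logHeight₁_div_eq_logHeight]

end lemmas

theorem back {F : Type} [Field F] [NumberField F] {d : ℕ} {p q : F[X]} (hf : IsBelyi p q d)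
    (H : OnFamily F p q) : UniformAbc := by
  obtain ⟨h1, h2, h3, h4, h5, h6⟩ := hf
  have hinj : Function.Injective (![0, 1] : Fin 2 → F) := by
    intro i j hij
    fin_cases i <;> fin_cases j <;> simp_all
  have hroots : ((Q265.BM.Pol p q ![0, 1]).rootSet (AlgebraicClosure F)).ncard ≤
      d * (2 - 1) + 1 := by
    rw [Q265.BD.Pol3, show q * (p * (p - q)) = p * q * (p - q) by ring]
    simpa using h6
  obtain ⟨n, R, C, hn, hC, step⟩ := Q265.BD.stepC ℚ F h2 h1 h3 h4 h5 le_rfl hinj hroots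
  have hnd : n ≤ d - 1 := by
    have : 2 + n ≤ d * 1 + 1 := hn
    omega
  have hdr : (1 : ℝ) ≤ d := by exact_mod_cast h2
  have hnr : (n : ℝ) ≤ d - 1 := by
    have : ((n : ℕ) : ℝ) ≤ ((d - 1 : ℕ) : ℝ) := by exact_mod_cast hnd
    rwa [Nat.cast_sub h2, Nat.cast_one] at this
  intro ε hε
  obtain ⟨ε', hε'⟩ : ∃ ε' : ℝ, ε' = ε / (1 + (1 + ε) * d) := ⟨_, rfl⟩
  have hden : 0 < 1 + (1 + ε) * (d : ℝ) := by positivity
  have hε'0 : 0 < ε' := by rw [hε']; positivity
  have hε'e : ε' * (1 + (1 + ε) * d) = ε := by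
    rw [hε']
    field_simp
  have hκ : (1 + ε) * (1 - ε' * n) ≥ 1 + ε' := by
    have h7 : ε' * (1 + ε) * n ≤ ε' * (1 + ε) * (d - 1) :=
      mul_le_mul_of_nonneg_left hnr (by positivity)
    have h8 : ε' * (1 + (1 + ε) * d) = ε' + ε' * (1 + ε) * (d - 1) + ε' * (1 + ε) := by ring
    have h9 : 0 ≤ ε' * (1 + ε) := by positivity
    have h10 : (1 + ε) * (1 - ε' * n) = 1 + ε - ε' * (1 + ε) * n := by ring
    rw [h10]
    linarith
  obtain ⟨C0, h0⟩ := H ε' hε'0
  refine ⟨(1 + ε) * (|C0| + (3 + ε') * C) + C + Real.log 2, fun L _ _ a b c ha hb hc habc => ?_⟩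
  obtain ⟨s, hs⟩ : ∃ s : L, s = -a / c := ⟨_, rfl⟩
  have hs0 : s ≠ 0 := by rw [hs]; exact div_ne_zero (neg_ne_zero.2 ha) hc
  have hs1 : s ≠ 1 := by
    rw [hs]
    intro h
    have h7 : -a = c := (div_eq_one_iff_eq hc).1 h
    exact hb (by linear_combination habc + h7)
  obtain ⟨M, i1, i2, i3, i4, i5, i6, i7, hMR, τ, k1, k2⟩ := step L s hs0 hs1
  obtain rfl : i3 = DivisionRing.toRatAlgebra := Subsingleton.elim _ _
  obtain ⟨nL, hnL⟩ : ∃ nL : ℝ, nL = Module.finrank ℚ L := ⟨_, rfl⟩
  have hnLp : 0 < nL := by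
    rw [hnL]
    exact_mod_cast Module.finrank_pos
  obtain ⟨mm, hmm⟩ : ∃ mm : ℝ, mm = Module.finrank L M := ⟨_, rfl⟩
  have hmmp : 0 < mm := by
    rw [hmm]
    exact_mod_cast Module.finrank_pos
  have hQM : (Module.finrank ℚ M : ℝ) = nL * mm := by
    rw [← Module.finrank_mul_finrank ℚ L M, hnL, hmm]
    push_cast
    rfl
  -- the height of the triple
  obtain ⟨hh, hhh⟩ : ∃ hh : ℝ, hh = logHeight₁ s / nL := ⟨_, rfl⟩
  have hHs : logHeight₁ s = nL * hh := by
    rw [hhh]
    field_simp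
  have hh0 : 0 ≤ hh := by
    rw [hhh]
    have := zero_le_logHeight₁ s
    positivity
  have hup : logH a b c ≤ hh + Real.log 2 := by
    have h7 := height_up ha hb hc habc
    rw [h1_eq, ← hs, hHs, ← hnL] at h7
    unfold logH
    rw [← hnL, div_le_iff₀ hnLp]
    linarith
  obtain ⟨U, hU⟩ : ∃ U : ℝ, U = Real.log (Q265.NF.PP (Q265.BD.UsA ∅ ![0, 1] s)) := ⟨_, rfl⟩
  have hU0 : 0 ≤ U := by rw [hU]; exact Q265.BM.log_PP_nonneg _
  obtain ⟨δ, hδ⟩ : ∃ δ : ℝ, δ = Real.log |(discr L : ℝ)| := ⟨_, rfl⟩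
  have hlogd : ∀ (L : Type) [Field L] [NumberField L], 0 ≤ Real.log |(discr L : ℝ)| := by
    intro L _ _
    refine Real.log_nonneg ?_
    have := Int.one_le_abs (NumberField.discr_ne_zero L)
    exact_mod_cast this
  have hδ0 : 0 ≤ δ := by rw [hδ]; exact hlogd _
  have hgoal : logδ L + logN a b c = (δ + U) / nL := by
    rw [logN_eq hc habc, ← hs, ← hU]
    unfold logδ
    rw [← hδ, ← hnL, add_div]
  rw [hgoal]
  have hRHS : 0 ≤ (δ + U) / nL := by positivity
  have hb0 := le_abs_self C0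
  have hb1 := abs_nonneg C0
  have hlog2 : 0 ≤ Real.log 2 := Real.log_nonneg one_le_two
  refine hup.trans ?_
  by_cases hdegen : ((Q265.BM.Pol p q ![0, 1]).map (algebraMap F M)).eval τ = 0
  · have k3 := k1 hdegen
    rw [hHs, ← hnL] at k3
    have k4 : hh ≤ C := le_of_mul_le_mul_left k3 hnLp
    have k5 : 0 ≤ (1 + ε) * ((δ + U) / nL) := by positivity
    have k6 : 0 ≤ (1 + ε) * (|C0| + (3 + ε') * C) := by positivity
    linarith
  · obtain ⟨hqt, k3⟩ := k2 hdegen
    obtain ⟨P, hP⟩ : ∃ P : M, P = aeval τ p := ⟨_, rfl⟩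
    obtain ⟨Q, hQ⟩ : ∃ Q : M, Q = aeval τ q := ⟨_, rfl⟩
    obtain ⟨y, hy⟩ : ∃ y : M, y = P / Q := ⟨_, rfl⟩
    have hy' : y = (p.map (algebraMap F M)).eval τ / (q.map (algebraMap F M)).eval τ := by
      rw [hy, hP, hQ, eval_map_algebraMap, eval_map_algebraMap]
    have hQ0 : Q ≠ 0 := by
      rw [hQ]
      rwa [eval_map_algebraMap] at hqt
    obtain ⟨k4, k5, k6⟩ := k3 y hy'
    have hP0 : P ≠ 0 := by
      intro h
      apply k4 0
      rw [hy, h, zero_div]
      simp
    have hPQ : Q - P ≠ 0 := by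
      intro h
      apply k4 1
      rw [hy, ← sub_eq_zero.1 h, div_self hQ0]
      simp
    have h7 := h0 M τ (by rw [← hP]; exact hP0) (by rw [← hP, ← hQ]; exact hPQ)
      (by rw [← hQ]; exact hQ0)
    rw [← hP, ← hQ, logN_eq (neg_ne_zero.2 hQ0) (by ring), neg_div_neg_eq, ← hy] at h7
    have h8 : logHeight₁ y ≤ nL * mm * logH P (Q - P) (-Q) := by
      have h9 := height_low P (Q - P) (-Q)
      rw [h1_eq, neg_div_neg_eq, ← hy] at h9
      unfold logH
      rw [hQM]
      have e : nL * mm * (logHeight ![P, Q - P, -Q] / (nL * mm)) =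
          logHeight ![P, Q - P, -Q] := by
        field_simp
      rw [e]
      exact h9
    have k7 := k6 ∅
    have hUp : Q265.BD.Up (∅ : Set (FinitePlace L)) M = ∅ := by
      ext w
      constructor
      · rintro ⟨v, hv, -⟩
        exact hv
      · intro h
        exact absurd h (Set.notMem_empty w)
    have eF : (fun j => algebraMap F M ((![0, 1] : Fin 2 → F) j)) = ![0, 1] := by
      funext j
      fin_cases j <;> simp
    rw [hUp, eF, ← hmm, ← hδ, ← hU, hHs, hQM] at k7
    rw [← hmm, hHs, hQM] at k5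
    obtain ⟨A, hA⟩ : ∃ A : ℝ, A = Real.log (Q265.NF.PP (Q265.BD.UsA ∅ ![0, 1] y)) := ⟨_, rfl⟩
    obtain ⟨δM, hδM⟩ : ∃ δM : ℝ, δM = Real.log |(discr M : ℝ)| := ⟨_, rfl⟩
    unfold logδ at h7
    rw [← hA, ← hδM, hQM, ← add_div] at h7
    rw [← hA, ← hδM] at k7
    -- arithmetic
    have m0 : logHeight₁ y ≤ (1 + ε') * (δM + A) + nL * mm * C0 := by
      have e : nL * mm * ((1 + ε') * ((δM + A) / (nL * mm)) + C0) =
          (1 + ε') * (δM + A) + nL * mm * C0 := by
        field_simp
      calc logHeight₁ y ≤ nL * mm * logH P (Q - P) (-Q) := h8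
        _ ≤ nL * mm * ((1 + ε') * ((δM + A) / (nL * mm)) + C0) :=
          mul_le_mul_of_nonneg_left h7 (by positivity)
        _ = _ := e
    have m1 : (1 + ε') * (δM + A) ≤
        (1 + ε') * (mm * (δ + U + n * (nL * hh)) + nL * mm * C) :=
      mul_le_mul_of_nonneg_left k7 (by positivity)
    have m2 : mm * nL * (d * hh) ≤ mm * nL * ((1 + ε') * ((δ + U) / nL + n * hh + C) + C0 + C) := by
      have e1 : mm * nL * (d * hh) = d * (mm * (nL * hh)) := by ring
      have e2 : mm * nL * ((1 + ε') * ((δ + U) / nL + n * hh + C) + C0 + C) =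
          (1 + ε') * (mm * (δ + U + n * (nL * hh)) + nL * mm * C) + nL * mm * C0 +
            nL * mm * C := by
        field_simp
      rw [e1, e2]
      linarith
    have m3 := le_of_mul_le_mul_left m2 (by positivity)
    -- `(1 - ε' n) h ≤ …`
    have m4 : (1 - ε' * n) * hh ≤ (1 + ε') * ((δ + U) / nL) + (|C0| + (2 + ε') * C) := by
      have e1 : (1 - ε' * n) * hh ≤ (d - (1 + ε') * n) * hh := by
        apply mul_le_mul_of_nonneg_right _ hh0
        linarith
      have e2 : (d - (1 + ε') * n) * hh = d * hh - (1 + ε') * (n * hh) := by ring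
      have e3 : (1 + ε') * ((δ + U) / nL + n * hh + C) =
          (1 + ε') * ((δ + U) / nL) + (1 + ε') * (n * hh) + (1 + ε') * C := by ring
      have e4 : (2 + ε') * C = (1 + ε') * C + C := by ring
      rw [e3] at m3
      rw [e4]
      linarith
    have m5 : (1 + ε') * hh ≤ (1 + ε) * ((1 - ε' * n) * hh) := by
      have := mul_le_mul_of_nonneg_right hκ hh0
      linarith
    have m6 : (1 + ε) * ((1 - ε' * n) * hh) ≤
        (1 + ε) * ((1 + ε') * ((δ + U) / nL) + (|C0| + (2 + ε') * C)) :=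
      mul_le_mul_of_nonneg_left m4 (by positivity)
    have m7 : (1 + ε') * hh ≤
        (1 + ε') * ((1 + ε) * ((δ + U) / nL) + (1 + ε) * (|C0| + (2 + ε') * C)) := by
      have e1 : (1 + ε) * (|C0| + (2 + ε') * C) ≤
          (1 + ε') * ((1 + ε) * (|C0| + (2 + ε') * C)) := by
        have : 0 ≤ (1 + ε) * (|C0| + (2 + ε') * C) := by positivity
        nlinarith
      have e2 : (1 + ε) * ((1 + ε') * ((δ + U) / nL) + (|C0| + (2 + ε') * C)) =
          (1 + ε') * ((1 + ε) * ((δ + U) / nL)) + (1 + ε) * (|C0| + (2 + ε') * C) := by ring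
      have e3 : (1 + ε') * ((1 + ε) * ((δ + U) / nL) + (1 + ε) * (|C0| + (2 + ε') * C)) =
          (1 + ε') * ((1 + ε) * ((δ + U) / nL)) +
            (1 + ε') * ((1 + ε) * (|C0| + (2 + ε') * C)) := by ring
      rw [e3]
      linarith
    have m8 := le_of_mul_le_mul_left m7 (by positivity)
    have m9 : (1 + ε) * (|C0| + (2 + ε') * C) ≤ (1 + ε) * (|C0| + (3 + ε') * C) := by
      apply mul_le_mul_of_nonneg_left _ (by positivity)
      nlinarith
    linarith

/-- For every Belyi map `f = p / q` over every number field `F` (with `f(∞)` in `{0, 1, ∞}`), the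
uniform abc conjecture is equivalent to its restriction to the triples
`(p(t), q(t) - p(t), -q(t))` with `t` in a number field containing `F`. -/
theorem result (F : Type) [Field F] [NumberField F] (p q : F[X]) (d : ℕ) (hf : IsBelyi p q d) :
    UniformAbc ↔ OnFamily F p q := by
  refine ⟨fun H ε hε => ?_, back hf⟩
  obtain ⟨C, hC⟩ := H ε hε
  refine ⟨C, fun K _ _ _ t h1 h2 h3 => hC K _ _ _ h1 h2 (neg_ne_zero.2 h3) (by ring)⟩

end Pool.Agent.Results.MP_6e34ef_nt.ValuesOfOneBelyiMap
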